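import Pool.Graph.R_seed8.TH476.KEnd

/-!
# Rooted graphs for all the exponents
-/

set_option autoImplicit false

open Classical

namespace Pool.Agent.KS6_71.HG

open Pool.Agent.W979.TE Pool.Agent.W979.TE4 Pool.Agent.W979.TE5 Pool.Agent.TH476.KK
open Pool.Agent.TH476.KK.KKmt

/-- balanced rooted graphs with bipartite blowups without isolated vertices, and with the right
upper bound -/
def Good2 (m e : ℕ) : Prop :=
  ∃ (V : Type) (_ : Fintype V) (T : SimpleGraph V) (R : Set V), Rᶜ.ncard = m ∧ eS T Rᶜ = e ∧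
    (∀ S : Set V, S ⊆ Rᶜ → e * S.ncard ≤ m * eS T S) ∧
    (∀ t : ℕ, 0 < t → (∀ a : BV V R t, ∃ b, (BU T R t).Adj a b) ∧
      ∃ χ : BV V R t → Bool, ∀ a b, (BU T R t).Adj a b → χ a ≠ χ b) ∧
    ∀ t : ℕ, 0 < t → ∃ C : ℝ, ∀ n : ℕ, ∀ G : SimpleGraph (Fin n), ¬ HasBU T R t G →
      (G.edgeSet.ncard : ℝ) ≤ C * (n : ℝ) ^ (2 - (m : ℝ) / (e : ℝ))

theorem good2_of_good {m e : ℕ} (h : Good m e) : Good2 m e := by
  obtain ⟨V, hV, T, R, col, hadm, hcard, he, hbal, hub⟩ := h
  refine ⟨V, hV, T, R, hcard, he, hbal, ?_, ?_⟩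
  · intro t ht
    obtain ⟨h1, h2⟩ := Pool.Agent.W653.TE4.sh3 V T R col hadm t ht
    refine ⟨?_, fun a => col a.1.1, h2⟩
    intro a
    obtain ⟨v, hv, hcv⟩ := hadm.both (!(col a.1.1))
    obtain ⟨b, hab⟩ : ∃ b : BV V R t, a ≠ b := by
      refine ⟨⟨(v, 0), ht, fun _ => rfl⟩, ?_⟩
      intro hab
      have h3 : a.1.1 = v := congrArg (fun x : BV V R t => x.1.1) hab
      rw [h3] at hcv
      cases h4 : col v <;> rw [h4] at hcv <;> simp at hcv
    obtain ⟨p⟩ := h1.preconnected a b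
    cases p with
    | nil => exact absurd rfl hab
    | cons h _ => exact ⟨_, h⟩
  · intro t ht
    obtain ⟨C, hC⟩ := hub t ht
    rw [one_div_div] at hC
    exact ⟨C, hC⟩

theorem good2_star {m : ℕ} (hm : 2 ≤ m) : Good2 1 m := by
  refine ⟨Option (Fin m), inferInstance, star m, leaves m,
    by rw [compl_leaves, Set.ncard_singleton], by rw [compl_leaves, eS_star], ?_, ?_, ?_⟩
  · intro S hS
    rw [compl_leaves] at hS
    rcases Set.subset_singleton_iff_eq.1 hS with h | h
    · rw [h, Set.ncard_empty, mul_zero]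
      exact Nat.zero_le _
    · rw [h, Set.ncard_singleton, eS_star, mul_one, one_mul]
  · intro t ht
    refine ⟨?_, fun v => v.1.1.isNone, ?_⟩
    · rintro ⟨⟨a, j⟩, ha1, ha2⟩
      cases a with
      | none =>
        refine ⟨⟨(some ⟨0, by omega⟩, 0), ht, fun _ => rfl⟩, ?_⟩
        rw [BU, SimpleGraph.fromRel_adj]
        refine ⟨?_, Or.inl ⟨?_, Or.inr (Or.inr ?_)⟩⟩
        · intro h
          exact absurd (congrArg (fun x : BV (Option (Fin m)) (leaves m) t => x.1.1) h) (by simp)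
        · show Option.isNone none ≠ Option.isNone (some _)
          simp
        · simp [leaves]
      | some i =>
        refine ⟨⟨(none, 0), ht, fun _ => rfl⟩, ?_⟩
        rw [BU, SimpleGraph.fromRel_adj]
        refine ⟨?_, Or.inl ⟨?_, Or.inr (Or.inl ?_)⟩⟩
        · intro h
          exact absurd (congrArg (fun x : BV (Option (Fin m)) (leaves m) t => x.1.1) h) (by simp)
        · show Option.isNone (some _) ≠ Option.isNone none
          simp
        · simp [leaves]
    · intro a b hab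
      rw [BU, SimpleGraph.fromRel_adj] at hab
      rcases hab.2 with h | h
      · exact h.1
      · exact h.1.symm
  · intro t ht
    refine ⟨(t : ℝ) + m, fun n G hG => ?_⟩
    have h1 := upper hm ht G hG
    rw [Nat.cast_one]
    refine le_trans (le_of_eq ?_) h1
    rw [Set.ncard_eq_toFinset_card', SimpleGraph.edgeFinset]

/-- all the exponents -/
theorem good2_all (a b : ℕ) (ha : 0 < a) (hab : a < b) :
    ∃ m e : ℕ, Good2 m e ∧ 0 < m ∧ m ≤ e ∧ (m : ℝ) / (e : ℝ) = (a : ℝ) / (b : ℝ) := by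
  by_cases hdvd : a ∣ b
  · obtain ⟨m, rfl⟩ := hdvd
    have hm : 2 ≤ m := by
      by_contra hlt
      have h1 : a * m ≤ a * 1 := Nat.mul_le_mul_left _ (by omega)
      omega
    refine ⟨1, m, good2_star hm, one_pos, by omega, ?_⟩
    have ha' : (a : ℝ) ≠ 0 := by exact_mod_cast ha.ne'
    push_cast
    rw [div_mul_eq_div_div, div_self ha']
  · refine ⟨a, b, ?_, ha, hab.le, rfl⟩
    obtain ⟨r, hr⟩ : ∃ r, r = b % a := ⟨_, rfl⟩
    have hr1 : 0 < r := by
      rw [hr]
      exact Nat.pos_of_ne_zero fun h => hdvd (Nat.dvd_of_mod_eq_zero h)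
    have hr2 : r < a := by
      rw [hr]
      exact Nat.mod_lt _ ha
    obtain ⟨j, hj⟩ : ∃ j, b = a * j + r := ⟨b / a, by rw [hr]; exact (Nat.div_add_mod b a).symm⟩
    have hj1 : 1 ≤ j := by
      by_contra h0
      have : j = 0 := by omega
      rw [this, mul_zero] at hj
      omega
    obtain ⟨i, rfl⟩ : ∃ i, j = i + 1 := ⟨j - 1, by omega⟩
    obtain ⟨k, hk⟩ : ∃ k, k = (a - 1) / r := ⟨_, rfl⟩
    obtain ⟨c0, hc0⟩ : ∃ c0, c0 = (a - 1) % r := ⟨_, rfl⟩
    have h4 : r * k + c0 = a - 1 := by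
      rw [hk, hc0]
      exact Nat.div_add_mod _ _
    have h5 : c0 < r := by
      rw [hc0]
      exact Nat.mod_lt _ hr1
    have hk1 : 1 ≤ k := by
      rw [hk]
      exact (Nat.one_le_div_iff hr1).mpr (by omega)
    have h6 := goodK main_holds cat_holds gtd_holds k r (c0 + 1) hk1 (by omega) (by omega)
    have h7 : k * r + (c0 + 1) = a := by
      have : r * k = k * r := Nat.mul_comm _ _
      omega
    rw [h7] at h6
    have h8 := good_iter ha (by omega) h6 i
    have h9 : a + r + i * a = b := by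
      rw [hj]
      ring
    rw [h9] at h8
    exact good2_of_good h8

end Pool.Agent.KS6_71.HG
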