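import Pool.Agent.KS6_71.HG.Hyp
import Pool.Agent.KS6_71.HG.Good2

/-!
# Rational exponents of hypergraphs relative to a prescribed subhypergraph
-/

set_option autoImplicit false

open Classical

namespace Pool.Agent.KS6_71.HG

open Pool.Agent.W979.TE

/-- `ex_k (n, H)` has order `n ^ r`. -/
def HasExponent (k : ℕ) {m : ℕ} (H : Finset (Finset (Fin m))) (r : ℝ) : Prop :=
  ∃ c C : ℝ, 0 < c ∧ 0 < C ∧ ∃ n0 : ℕ, ∀ n : ℕ, n0 ≤ n →
    c * (n : ℝ) ^ r ≤ (exk k n H : ℝ) ∧ (exk k n H : ℝ) ≤ C * (n : ℝ) ^ r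

/-- `ex_k (n, F) = O (n ^ r)`. -/
def AtMostExponent (k : ℕ) {m : ℕ} (F : Finset (Finset (Fin m))) (r : ℝ) : Prop :=
  ∃ C : ℝ, ∃ n0 : ℕ, ∀ n : ℕ, n0 ≤ n → (exk k n F : ℝ) ≤ C * (n : ℝ) ^ r

/-- all the exponents `k - a / b` -/
theorem base (k : ℕ) (hk : 2 ≤ k) (a b : ℕ) (ha : 0 < a) (hab : a < b) :
    ∃ (l : ℕ) (H : Finset (Finset (Fin l))), Uniform k H ∧ Partite k H ∧
      (∀ v, ∃ s ∈ H, v ∈ s) ∧ HasExponent k H ((k : ℝ) - (a : ℝ) / (b : ℝ)) := by
  obtain ⟨m, e, ⟨V, hV, T, R, hcard, he, hbal, hbu, hub⟩, hm0, hme, hq⟩ := good2_all a b ha hab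
  obtain ⟨t, ht, c, hc, n0, hlow⟩ := low k hk V T R m e hcard.symm he.symm hm0 hme hbal
    (fun t ht => (hbu t ht).1)
  obtain ⟨hnb, χ, hχ⟩ := hbu t ht
  obtain ⟨C, hC⟩ := hub t ht
  have hne : Nonempty (BV V R t) := by
    have h1 : (Rᶜ).Nonempty := by
      rw [Set.nonempty_iff_ne_empty]
      intro h
      rw [h, Set.ncard_empty] at hcard
      omega
    obtain ⟨v, hv⟩ := h1
    exact ⟨⟨(v, 0), ht, fun h => absurd h hv⟩⟩
  rw [hq] at hlow hC
  let eq := Fintype.equivFin (BV V R t ⊕ Fin (k - 2))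
  refine ⟨_, mapH eq.toEmbedding (coneH T R t k), uniform_mapH _ (cone_uniform T R t k hk),
    partite_equiv eq (cone_partite T R t k hk χ hχ), ?_, c, max C 0 + 1, hc, by positivity, n0, ?_⟩
  · intro v
    obtain ⟨s, hs, hvs⟩ := cone_noiso T R t k hne hnb (eq.symm v)
    refine ⟨_, mem_mapH.2 ⟨s, hs, rfl⟩, ?_⟩
    rw [Finset.mem_map]
    exact ⟨eq.symm v, hvs, by simp⟩
  · intro n hn
    have hiff : ∀ G : Finset (Finset (Fin n)),
        Contains (mapH eq.toEmbedding (coneH T R t k)) G ↔ HasCone k T R t G := by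
      intro G
      rw [← cone_iff T R t k hk]
      exact ⟨fun h => contains_trans (contains_mapH _ _) h,
        fun h => contains_trans (mapH_contains _ _) h⟩
    constructor
    · obtain ⟨G, h1, h2, h3⟩ := hlow n hn
      refine h3.trans ?_
      exact_mod_cast le_exk h1 (fun h => h2 ((hiff G).1 h))
    · refine exk_le (by positivity) fun G h1 h2 => ?_
      refine (up k hk V T R t hnb C _ hC n G h1 (fun h => h2 ((hiff G).2 h))).trans ?_
      have : (0 : ℝ) ≤ (n : ℝ) ^ ((k : ℝ) - (a : ℝ) / (b : ℝ)) := by positivity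
      nlinarith

/-! ## disjoint unions -/

theorem card_vertex {n k : ℕ} (hk : 1 ≤ k) (G : Finset (Finset (Fin n))) (hG : Uniform k G)
    (v : Fin n) : (G.filter (fun s => v ∈ s)).card ≤ n ^ (k - 1) := by
  have h1 : (G.filter (fun s => v ∈ s)).card ≤
      ((Finset.univ : Finset (Fin n)).powersetCard (k - 1)).card := by
    refine Finset.card_le_card_of_injOn (fun s => s.erase v) ?_ ?_
    · intro s hs
      rw [Finset.mem_coe, Finset.mem_filter] at hs
      rw [Finset.mem_coe, Finset.mem_powersetCard]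
      refine ⟨Finset.subset_univ _, ?_⟩
      show (s.erase v).card = k - 1
      rw [Finset.card_erase_of_mem hs.2, hG s hs.1]
    · intro s hs s' hs' h
      rw [Finset.mem_coe, Finset.mem_filter] at hs hs'
      have h' : s.erase v = s'.erase v := h
      rw [← Finset.insert_erase hs.2, h', Finset.insert_erase hs'.2]
  refine h1.trans ?_
  rw [Finset.card_powersetCard, Finset.card_univ, Fintype.card_fin]
  exact Nat.choose_le_pow _ _

theorem card_meet {n k : ℕ} (hk : 1 ≤ k) (G : Finset (Finset (Fin n))) (hG : Uniform k G)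
    (A : Finset (Fin n)) : (G.filter (fun s => ¬ Disjoint s A)).card ≤ A.card * n ^ (k - 1) := by
  have h1 : G.filter (fun s => ¬ Disjoint s A) ⊆ A.biUnion (fun v => G.filter (fun s => v ∈ s)) := by
    intro s hs
    rw [Finset.mem_filter] at hs
    obtain ⟨v, hv1, hv2⟩ := Finset.not_disjoint_iff.1 hs.2
    rw [Finset.mem_biUnion]
    exact ⟨v, hv2, Finset.mem_filter.2 ⟨hs.1, hv1⟩⟩
  refine (Finset.card_le_card h1).trans ?_
  refine Finset.card_biUnion_le.trans ?_
  refine (Finset.sum_le_sum fun v _ => card_vertex hk G hG v).trans ?_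
  rw [Finset.sum_const, smul_eq_mul]

/-- the disjoint union -/
noncomputable def du {m l : ℕ} (F : Finset (Finset (Fin m))) (H : Finset (Finset (Fin l))) :
    Finset (Finset (Fin m ⊕ Fin l)) :=
  mapH ⟨Sum.inl, Sum.inl_injective⟩ F ∪ mapH ⟨Sum.inr, Sum.inr_injective⟩ H

theorem du_uniform {k m l : ℕ} {F : Finset (Finset (Fin m))} {H : Finset (Finset (Fin l))}
    (h1 : Uniform k F) (h2 : Uniform k H) : Uniform k (du F H) := by
  intro s hs
  unfold du at hs
  rw [Finset.mem_union] at hs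
  rcases hs with hs | hs
  · exact uniform_mapH _ h1 s hs
  · exact uniform_mapH _ h2 s hs

theorem du_partite {k m l : ℕ} {F : Finset (Finset (Fin m))} {H : Finset (Finset (Fin l))}
    (h1 : Partite k F) (h2 : Partite k H) : Partite k (du F H) := by
  obtain ⟨χ, hχ⟩ := h1
  obtain ⟨χ', hχ'⟩ := h2
  refine ⟨Sum.elim χ χ', ?_⟩
  intro s hs x hx y hy hxy
  unfold du at hs
  rw [Finset.mem_union] at hs
  rcases hs with hs | hs
  · obtain ⟨s', hs', rfl⟩ := mem_mapH.1 hs
    rw [Finset.mem_coe, Finset.mem_map] at hx hy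
    obtain ⟨x', hx', rfl⟩ := hx
    obtain ⟨y', hy', rfl⟩ := hy
    have h3 : χ x' = χ y' := hxy
    rw [hχ s' hs' (Finset.mem_coe.2 hx') (Finset.mem_coe.2 hy') h3]
  · obtain ⟨s', hs', rfl⟩ := mem_mapH.1 hs
    rw [Finset.mem_coe, Finset.mem_map] at hx hy
    obtain ⟨x', hx', rfl⟩ := hx
    obtain ⟨y', hy', rfl⟩ := hy
    have h3 : χ' x' = χ' y' := hxy
    rw [hχ' s' hs' (Finset.mem_coe.2 hx') (Finset.mem_coe.2 hy') h3]

theorem du_induced {k m l : ℕ} (hk : 1 ≤ k) {F : Finset (Finset (Fin m))}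
    {H : Finset (Finset (Fin l))} (h2 : Uniform k H) (s : Finset (Fin m)) :
    s.map ⟨Sum.inl, Sum.inl_injective⟩ ∈ du F H ↔ s ∈ F := by
  unfold du
  rw [Finset.mem_union]
  constructor
  · rintro (h | h)
    · obtain ⟨s', hs', h3⟩ := mem_mapH.1 h
      rw [← Finset.map_injective _ h3]
      exact hs'
    · exfalso
      obtain ⟨s', hs', h3⟩ := mem_mapH.1 h
      have h4 : s'.Nonempty := by
        rw [← Finset.card_pos, h2 s' hs']
        omega
      obtain ⟨x, hx⟩ := h4
      have h5 : (Sum.inr x : Fin m ⊕ Fin l) ∈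
          s'.map (⟨Sum.inr, Sum.inr_injective⟩ : Fin l ↪ Fin m ⊕ Fin l) :=
        Finset.mem_map_of_mem _ hx
      rw [h3, Finset.mem_map] at h5
      obtain ⟨y, _, hy⟩ := h5
      exact absurd hy (by simp)
  · intro h
    exact Or.inl (mem_mapH.2 ⟨s, h, rfl⟩)

theorem du_right {m l : ℕ} (F : Finset (Finset (Fin m))) (H : Finset (Finset (Fin l))) :
    Contains H (du F H) := by
  refine ⟨⟨Sum.inr, Sum.inr_injective⟩, fun s hs => ?_⟩
  unfold du
  rw [Finset.mem_union]
  exact Or.inr (mem_mapH.2 ⟨s, hs, rfl⟩)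

/-- a dense hypergraph contains the disjoint union -/
theorem du_contains {k m l n : ℕ} (hk : 1 ≤ k) {F : Finset (Finset (Fin m))}
    {H : Finset (Finset (Fin l))} (hiso : ∀ v, ∃ s ∈ H, v ∈ s) {G : Finset (Finset (Fin n))}
    (hG : Uniform k G) (h1 : exk k n F < G.card)
    (h2 : exk k n H + m * n ^ (k - 1) < G.card) : Contains (du F H) G := by
  have hF : Contains F G := by
    by_contra h
    exact absurd (le_exk hG h) (not_le.2 h1)
  obtain ⟨φ, hφ⟩ := hF
  set A : Finset (Fin n) := Finset.univ.map φ with hA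
  have hAc : A.card = m := by rw [hA, Finset.card_map, Finset.card_univ, Fintype.card_fin]
  set G' : Finset (Finset (Fin n)) := G.filter (fun s => Disjoint s A) with hG'
  have hcard : G'.card + (G.filter (fun s => ¬ Disjoint s A)).card = G.card :=
    Finset.card_filter_add_card_filter_not (s := G) (fun s => Disjoint s A)
  have hmeet := card_meet hk G hG A
  rw [hAc] at hmeet
  have hH : Contains H G' := by
    by_contra h
    have h3 : Uniform k G' := fun s hs => hG s (Finset.mem_filter.1 hs).1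
    have h4 := le_exk h3 h
    omega
  obtain ⟨ψ, hψ⟩ := hH
  have hdisj : ∀ x y, φ x ≠ ψ y := by
    intro x y h
    obtain ⟨s, hs, hys⟩ := hiso y
    have h3 := (Finset.mem_filter.1 (hψ s hs)).2
    rw [Finset.disjoint_left] at h3
    refine h3 (Finset.mem_map_of_mem ψ hys) ?_
    rw [← h, hA]
    exact Finset.mem_map_of_mem φ (Finset.mem_univ x)
  let Φ : Fin m ⊕ Fin l ↪ Fin n := ⟨Sum.elim φ ψ, by
    rintro (a | i) (b | j) h
    · rw [φ.injective h]
    · exact absurd h (hdisj a j)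
    · exact absurd (Eq.symm h) (hdisj b i)
    · rw [ψ.injective h]⟩
  refine ⟨Φ, fun s hs => ?_⟩
  unfold du at hs
  rw [Finset.mem_union] at hs
  rcases hs with hs | hs
  · obtain ⟨s', hs', rfl⟩ := mem_mapH.1 hs
    rw [Finset.map_map]
    have : (⟨Sum.inl, Sum.inl_injective⟩ : Fin m ↪ Fin m ⊕ Fin l).trans Φ = φ := by
      ext x
      rfl
    rw [this]
    exact hφ s' hs'
  · obtain ⟨s', hs', rfl⟩ := mem_mapH.1 hs
    rw [Finset.map_map]
    have : (⟨Sum.inr, Sum.inr_injective⟩ : Fin l ↪ Fin m ⊕ Fin l).trans Φ = ψ := by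
      ext x
      rfl
    rw [this]
    exact (Finset.mem_filter.1 (hψ s' hs')).1

/-- the exponent of the disjoint union -/
theorem du_exponent {k m l : ℕ} (hk : 1 ≤ k) {F : Finset (Finset (Fin m))}
    {H : Finset (Finset (Fin l))} (hiso : ∀ v, ∃ s ∈ H, v ∈ s) {r : ℝ} (hr : (k : ℝ) - 1 ≤ r)
    (hF : AtMostExponent k F r) (hH : HasExponent k H r) :
    HasExponent k (mapH (finSumFinEquiv (m := m) (n := l)).toEmbedding (du F H)) r := by
  obtain ⟨c, C, hc, hC, n0, hn0⟩ := hH
  obtain ⟨C', n1, hn1⟩ := hF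
  refine ⟨c, C + m + |C'|, hc, by positivity, max (max n0 n1) 1, fun n hn => ?_⟩
  have hn0' : n0 ≤ n := le_trans (le_trans (le_max_left _ _) (le_max_left _ _)) hn
  have hn1' : n1 ≤ n := le_trans (le_trans (le_max_right _ _) (le_max_left _ _)) hn
  have hn1'' : 1 ≤ n := le_trans (le_max_right _ _) hn
  obtain ⟨h1, h2⟩ := hn0 n hn0'
  have h3 := hn1 n hn1'
  have hnR : (1 : ℝ) ≤ n := by exact_mod_cast hn1''
  have hpos : (0 : ℝ) ≤ (n : ℝ) ^ r := by positivity
  constructor
  · refine h1.trans ?_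
    have : exk k n H ≤ exk k n (mapH (finSumFinEquiv (m := m) (n := l)).toEmbedding (du F H)) := by
      refine exk_mono fun G hG => ?_
      exact contains_trans (contains_trans (du_right F H) (contains_mapH _ _)) hG
    exact_mod_cast this
  · refine exk_le (by positivity) fun G hG hno => ?_
    by_contra hcon
    push Not at hcon
    apply hno
    refine contains_trans (mapH_contains _ _) (du_contains hk hiso hG ?_ ?_)
    · have h4 : (exk k n F : ℝ) < G.card := by
        refine lt_of_le_of_lt ?_ hcon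
        refine h3.trans ?_
        refine mul_le_mul_of_nonneg_right ?_ hpos
        have := le_abs_self C'
        have hm : (0 : ℝ) ≤ m := Nat.cast_nonneg m
        linarith
      exact_mod_cast h4
    · have h5 : (n : ℝ) ^ (k - 1) ≤ (n : ℝ) ^ r := by
        rw [← Real.rpow_natCast]
        refine Real.rpow_le_rpow_of_exponent_le hnR ?_
        rw [Nat.cast_sub hk, Nat.cast_one]
        exact hr
      have h4 : (exk k n H : ℝ) + m * (n : ℝ) ^ (k - 1) < G.card := by
        refine lt_of_le_of_lt ?_ hcon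
        have hm : (0 : ℝ) ≤ m := Nat.cast_nonneg m
        have h6 : (m : ℝ) * (n : ℝ) ^ (k - 1) ≤ m * (n : ℝ) ^ r := mul_le_mul_of_nonneg_left h5 hm
        have h7 : 0 ≤ |C'| * (n : ℝ) ^ r := by positivity
        nlinarith
      exact_mod_cast h4

/-- The theorem. -/
theorem main (k : ℕ) (hk : 2 ≤ k) (r : ℚ) (h1 : (k : ℚ) - 1 < r) (h2 : r < k) (m : ℕ)
    (F : Finset (Finset (Fin m))) (hFu : Uniform k F) (hFp : Partite k F) :
    (∃ (l : ℕ) (H : Finset (Finset (Fin l))), Uniform k H ∧ Partite k H ∧ InducedIn F H ∧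
      HasExponent k H (r : ℝ)) ↔ AtMostExponent k F (r : ℝ) := by
  constructor
  · rintro ⟨l, H, -, -, ⟨φ, hφ⟩, c, C, -, -, n0, hn⟩
    refine ⟨C, n0, fun n hn0 => ?_⟩
    refine le_trans ?_ (hn n hn0).2
    have h3 : exk k n F ≤ exk k n H := by
      refine exk_mono fun G hG => contains_trans ⟨φ, fun s hs => (hφ s).2 hs⟩ hG
    exact_mod_cast h3
  · intro hO
    -- the rational number
    have hden : 0 < r.den := r.den_pos
    have hdenQ : (0 : ℚ) < (r.den : ℚ) := by exact_mod_cast hden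
    have hnum : r = (r.num : ℚ) / (r.den : ℚ) := (Rat.num_div_den r).symm
    have h3 : ((k : ℤ) - 1) * (r.den : ℤ) < r.num := by
      have h4 := mul_lt_mul_of_pos_right h1 hdenQ
      rw [Rat.mul_den_eq_num] at h4
      exact_mod_cast h4
    have h4 : r.num < (k : ℤ) * (r.den : ℤ) := by
      have h4 := mul_lt_mul_of_pos_right h2 hdenQ
      rw [Rat.mul_den_eq_num] at h4
      exact_mod_cast h4
    obtain ⟨a, ha⟩ : ∃ a : ℕ, (a : ℤ) = (k : ℤ) * (r.den : ℤ) - r.num :=
      ⟨((k : ℤ) * (r.den : ℤ) - r.num).toNat, by omega⟩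
    have ha0 : 0 < a := by omega
    have hab : a < r.den := by
      have h5 : ((k : ℤ) - 1) * (r.den : ℤ) = (k : ℤ) * (r.den : ℤ) - (r.den : ℤ) := by ring
      rw [h5] at h3
      omega
    obtain ⟨l, H, hHu, hHp, hiso, hex⟩ := base k hk a r.den ha0 hab
    have hrr : (k : ℝ) - (a : ℝ) / (r.den : ℝ) = (r : ℝ) := by
      have hqR : (r.den : ℝ) ≠ 0 := by exact_mod_cast hden.ne'
      have h5 : (r : ℝ) = (r.num : ℝ) / (r.den : ℝ) := by
        exact_mod_cast congrArg (fun x : ℚ => (x : ℝ)) hnum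
      have h6 : (a : ℝ) = (k : ℝ) * (r.den : ℝ) - (r.num : ℝ) := by exact_mod_cast ha
      rw [h5, h6]
      field_simp
      ring
    rw [hrr] at hex
    have hr' : (k : ℝ) - 1 ≤ (r : ℝ) := by
      have h5 : (((k : ℚ) - 1 : ℚ) : ℝ) < (r : ℝ) := by exact_mod_cast h1
      push_cast at h5
      exact h5.le
    refine ⟨m + l, mapH (finSumFinEquiv (m := m) (n := l)).toEmbedding (du F H),
      uniform_mapH _ (du_uniform hFu hHu), partite_equiv _ (du_partite hFp hHp), ?_,
      du_exponent (by omega) hiso hr' hO hex⟩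
    refine ⟨(⟨Sum.inl, Sum.inl_injective⟩ : Fin m ↪ Fin m ⊕ Fin l).trans
      (finSumFinEquiv (m := m) (n := l)).toEmbedding, fun s => ?_⟩
    rw [← Finset.map_map, ← du_induced (F := F) (show 1 ≤ k by omega) hHu s]
    constructor
    · intro h
      obtain ⟨s', hs', h5⟩ := mem_mapH.1 h
      rw [← Finset.map_injective _ h5]
      exact hs'
    · intro h
      exact mem_mapH.2 ⟨_, h, rfl⟩

end Pool.Agent.KS6_71.HG
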