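import Pool.Graph.R_seed8.W979.TE.Lower

/-!
# Restrictions of polynomials in `k e` variables to two coordinates
-/

set_option autoImplicit false

open Classical

namespace Pool.Agent.KS6_71.HG

open Pool.Agent.W979.TE

/-- m-tuples of polynomials in k e variables of individual degrees at most d -/
abbrev Ok (F : Type) [Field F] (k m e d : ℕ) : Type :=
  Fin m → MvPolynomial.restrictDegree (Fin k × Fin e) F d

instance (F : Type) [Field F] [Finite F] (k m e d : ℕ) : Finite (Ok F k m e d) := by
  have : Finite (MvPolynomial.restrictDegree (Fin k × Fin e) F d) := Module.finite_of_finite F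
  exact inferInstance

theorem mem_rd {F σ : Type} [Field F] {d : ℕ} {P : MvPolynomial σ F} :
    P ∈ MvPolynomial.restrictDegree σ F d ↔ ∀ n, MvPolynomial.degreeOf n P ≤ d := by
  rw [MvPolynomial.mem_restrictDegree]
  constructor
  · intro h n
    rw [MvPolynomial.degreeOf_le_iff]
    exact fun s hs => h s hs n
  · intro h s hs n
    exact MvPolynomial.degreeOf_le_iff.1 (h n) s hs

/-- degrees after a substitution -/
theorem deg_aeval {F σ τ : Type} [Field F] [Fintype σ] {d : ℕ} (g : σ → MvPolynomial τ F)
    {P : MvPolynomial σ F} (hP : P ∈ MvPolynomial.restrictDegree σ F d) (n : τ)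
    (h : ∑ v, MvPolynomial.degreeOf n (g v) ≤ 1) :
    MvPolynomial.degreeOf n (MvPolynomial.aeval g P) ≤ d := by
  rw [MvPolynomial.aeval_def, MvPolynomial.eval₂_eq']
  refine le_trans (MvPolynomial.degreeOf_sum_le _ _ _) ?_
  apply Finset.sup_le
  intro s hs
  rw [MvPolynomial.mem_restrictDegree] at hP
  refine le_trans (MvPolynomial.degreeOf_mul_le _ _ _) ?_
  have h1 : MvPolynomial.degreeOf n
      ((algebraMap F (MvPolynomial τ F)) (MvPolynomial.coeff s P)) = 0 :=
    MvPolynomial.degreeOf_C _ _
  rw [h1, zero_add]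
  refine le_trans (MvPolynomial.degreeOf_prod_le _ _ _) ?_
  calc ∑ i, MvPolynomial.degreeOf n (g i ^ s i)
      ≤ ∑ i, d * MvPolynomial.degreeOf n (g i) := by
        apply Finset.sum_le_sum
        intro i _
        refine le_trans (MvPolynomial.degreeOf_pow_le _ _ _) ?_
        exact Nat.mul_le_mul_right _ (hP s hs i)
    _ = d * ∑ i, MvPolynomial.degreeOf n (g i) := by rw [Finset.mul_sum]
    _ ≤ d * 1 := Nat.mul_le_mul_left _ h
    _ = d := mul_one _

section
variable {F : Type} [Field F] {k e : ℕ}

/-- the polynomials which are substituted: the coordinates i and j are free, the others are c -/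
noncomputable def rg (i j : Fin k) (c : Fin k → Fin e → F) (v : Fin k × Fin e) :
    MvPolynomial (Fin e ⊕ Fin e) F :=
  if v.1 = i then MvPolynomial.X (Sum.inl v.2) else
    if v.1 = j then MvPolynomial.X (Sum.inr v.2) else MvPolynomial.C (c v.1 v.2)

/-- the substitution -/
noncomputable def rsub (i j : Fin k) (c : Fin k → Fin e → F) :
    MvPolynomial (Fin k × Fin e) F →ₐ[F] MvPolynomial (Fin e ⊕ Fin e) F :=
  MvPolynomial.aeval (rg i j c)

theorem rg_deg {i j : Fin k} (hij : i ≠ j) (c : Fin k → Fin e → F) (w : Fin e ⊕ Fin e) :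
    ∑ v, MvPolynomial.degreeOf w (rg i j c v) ≤ 1 := by
  set v0 : Fin k × Fin e := Sum.elim (fun a => (i, a)) (fun a => (j, a)) w with hv0
  have h : ∀ v, MvPolynomial.degreeOf w (rg i j c v) ≤ if v = v0 then 1 else 0 := by
    intro v
    obtain ⟨v1, v2⟩ := v
    unfold rg
    simp only
    by_cases h1 : v1 = i
    · rw [if_pos h1, MvPolynomial.degreeOf_X]
      by_cases h2 : w = Sum.inl v2
      · have h3 : (v1, v2) = v0 := by
          rw [hv0, h2, h1]
          rfl
        rw [if_pos h2, if_pos h3]
      · rw [if_neg h2]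
        exact Nat.zero_le _
    · rw [if_neg h1]
      by_cases h4 : v1 = j
      · rw [if_pos h4, MvPolynomial.degreeOf_X]
        by_cases h2 : w = Sum.inr v2
        · have h3 : (v1, v2) = v0 := by
            rw [hv0, h2, h4]
            rfl
          rw [if_pos h2, if_pos h3]
        · rw [if_neg h2]
          exact Nat.zero_le _
      · rw [if_neg h4, MvPolynomial.degreeOf_C]
        exact Nat.zero_le _
  refine (Finset.sum_le_sum fun v _ => h v).trans ?_
  rw [Finset.sum_ite_eq' Finset.univ v0 (fun _ => 1)]
  simp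

theorem rsub_mem {i j : Fin k} (hij : i ≠ j) (c : Fin k → Fin e → F) {d : ℕ}
    {P : MvPolynomial (Fin k × Fin e) F}
    (hP : P ∈ MvPolynomial.restrictDegree (Fin k × Fin e) F d) :
    rsub i j c P ∈ MvPolynomial.restrictDegree (Fin e ⊕ Fin e) F d := by
  rw [mem_rd]
  intro w
  exact deg_aeval _ hP w (rg_deg hij c w)

/-- the point with the coordinates x, y, c -/
def pnt (i j : Fin k) (c : Fin k → Fin e → F) (x y : Fin e → F) (v : Fin k) : Fin e → F :=
  if v = i then x else if v = j then y else c v

theorem rsub_eval (i j : Fin k) (c : Fin k → Fin e → F) (x y : Fin e → F)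
    (P : MvPolynomial (Fin k × Fin e) F) :
    MvPolynomial.eval (Sum.elim x y) (rsub i j c P) =
      MvPolynomial.eval (fun v : Fin k × Fin e => pnt i j c x y v.1 v.2) P := by
  unfold rsub
  rw [← MvPolynomial.aeval_eq_eval, MvPolynomial.comp_aeval_apply, ← MvPolynomial.aeval_eq_eval]
  congr 1
  apply congrArg
  funext v
  unfold rg pnt
  split_ifs <;> simp

/-- the section -/
def sg (i j : Fin k) : Fin e ⊕ Fin e → Fin k × Fin e :=
  Sum.elim (fun a => (i, a)) (fun a => (j, a))

theorem sg_inj {i j : Fin k} (hij : i ≠ j) : Function.Injective (sg (e := e) i j) := by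
  rintro (a | a) (b | b) h
  · simp only [sg, Sum.elim_inl, Prod.mk.injEq, true_and] at h
    rw [h]
  · simp only [sg, Sum.elim_inl, Sum.elim_inr, Prod.mk.injEq] at h
    exact absurd h.1 hij
  · simp only [sg, Sum.elim_inl, Sum.elim_inr, Prod.mk.injEq] at h
    exact absurd h.1.symm hij
  · simp only [sg, Sum.elim_inr, Prod.mk.injEq, true_and] at h
    rw [h]

theorem ren_mem {i j : Fin k} (hij : i ≠ j) {d : ℕ} {P : MvPolynomial (Fin e ⊕ Fin e) F}
    (hP : P ∈ MvPolynomial.restrictDegree (Fin e ⊕ Fin e) F d) :
    MvPolynomial.rename (sg i j) P ∈ MvPolynomial.restrictDegree (Fin k × Fin e) F d := by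
  rw [mem_rd]
  intro v
  rw [MvPolynomial.rename_eq_aeval]
  refine deg_aeval _ hP v ?_
  have h : ∀ w, MvPolynomial.degreeOf v ((MvPolynomial.X ∘ sg i j) w : MvPolynomial _ F) =
      if v = sg i j w then 1 else 0 := by
    intro w
    rw [Function.comp_apply, MvPolynomial.degreeOf_X]
  simp only [h]
  rw [← Finset.card_filter]
  rw [Finset.card_le_one]
  intro a ha b hb
  rw [Finset.mem_filter] at ha hb
  exact sg_inj hij (ha.2.symm.trans hb.2)

theorem rsub_ren {i j : Fin k} (hij : i ≠ j) (c : Fin k → Fin e → F)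
    (P : MvPolynomial (Fin e ⊕ Fin e) F) :
    rsub i j c (MvPolynomial.rename (sg i j) P) = P := by
  unfold rsub
  rw [MvPolynomial.aeval_rename]
  have : rg i j c ∘ sg i j = MvPolynomial.X := by
    funext w
    rcases w with a | a
    · simp [rg, sg]
    · simp [rg, sg, hij.symm]
  rw [this]
  exact MvPolynomial.aeval_X_left_apply P

/-- the restriction of tuples -/
noncomputable def res {m d : ℕ} {i j : Fin k} (hij : i ≠ j) (c : Fin k → Fin e → F)
    (f : Ok F k m e d) : Om F m e d :=
  fun l => ⟨rsub i j c (f l), rsub_mem hij c (f l).2⟩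

/-- its section -/
noncomputable def sec {m d : ℕ} {i j : Fin k} (hij : i ≠ j) (g : Om F m e d) : Ok F k m e d :=
  fun l => ⟨MvPolynomial.rename (sg i j) (g l : MvPolynomial (Fin e ⊕ Fin e) F),
    ren_mem hij (g l).2⟩

theorem res_sec {m d : ℕ} {i j : Fin k} (hij : i ≠ j) (c : Fin k → Fin e → F) (g : Om F m e d) :
    res hij c (sec hij g) = g := by
  funext l
  apply Subtype.ext
  exact rsub_ren hij c _

theorem res_add {m d : ℕ} {i j : Fin k} (hij : i ≠ j) (c : Fin k → Fin e → F)
    (f g : Ok F k m e d) : res hij c (f + g) = res hij c f + res hij c g := by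
  funext l
  apply Subtype.ext
  show rsub i j c ((f l : MvPolynomial (Fin k × Fin e) F) + g l) = _
  rw [map_add]
  rfl

theorem res_sub {m d : ℕ} {i j : Fin k} (hij : i ≠ j) (c : Fin k → Fin e → F)
    (f g : Ok F k m e d) : res hij c (f - g) = res hij c f - res hij c g := by
  funext l
  apply Subtype.ext
  show rsub i j c ((f l : MvPolynomial (Fin k × Fin e) F) - g l) = _
  rw [map_sub]
  rfl

/-- the restriction maps the uniform distribution to the uniform distribution -/
theorem res_card [Finite F] {m d : ℕ} {i j : Fin k} (hij : i ≠ j) (c : Fin k → Fin e → F)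
    (P : Om F m e d → Prop) :
    Nat.card {f : Ok F k m e d // P (res hij c f)} * Nat.card (Om F m e d) =
      Nat.card {g : Om F m e d // P g} * Nat.card (Ok F k m e d) := by
  let e1 : Ok F k m e d ≃ {f : Ok F k m e d // res hij c f = 0} × Om F m e d :=
    { toFun := fun f => (⟨f - sec hij (res hij c f), by rw [res_sub, res_sec, sub_self]⟩,
        res hij c f)
      invFun := fun p => p.1.1 + sec hij p.2
      left_inv := fun f => by simp
      right_inv := fun p => by
        have h1 : res hij c (p.1.1 + sec hij p.2) = p.2 := by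
          rw [res_add, res_sec, p.1.2, zero_add]
        refine Prod.ext (Subtype.ext ?_) ?_
        · show p.1.1 + sec hij p.2 - sec hij (res hij c (p.1.1 + sec hij p.2)) = p.1.1
          rw [h1, add_sub_cancel_right]
        · exact h1 }
  let e2 : {f : Ok F k m e d // P (res hij c f)} ≃
      {f : Ok F k m e d // res hij c f = 0} × {g : Om F m e d // P g} :=
    { toFun := fun f => (⟨f.1 - sec hij (res hij c f.1), by rw [res_sub, res_sec, sub_self]⟩,
        ⟨res hij c f.1, f.2⟩)
      invFun := fun p => ⟨p.1.1 + sec hij p.2.1, by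
        rw [res_add, res_sec, p.1.2, zero_add]
        exact p.2.2⟩
      left_inv := fun f => by
        apply Subtype.ext
        simp
      right_inv := fun p => by
        have h1 : res hij c (p.1.1 + sec hij p.2.1) = p.2.1 := by
          rw [res_add, res_sec, p.1.2, zero_add]
        refine Prod.ext (Subtype.ext ?_) (Subtype.ext ?_)
        · show p.1.1 + sec hij p.2.1 - sec hij (res hij c (p.1.1 + sec hij p.2.1)) = p.1.1
          rw [h1, add_sub_cancel_right]
        · exact h1 }
  rw [Nat.card_congr e1, Nat.card_congr e2, Nat.card_prod, Nat.card_prod]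
  ring

end

end Pool.Agent.KS6_71.HG
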